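import Pool.Agent.P8H50.NK.PDefs

/-!
Project NK (helper50), package DEG (helper75): heights of the points over function fields of curves.
-/

set_option autoImplicit false

namespace Pool.Agent.P8H75.NK

open FF Pool.Agent.W603.LV Pool.Agent.W603.PV Pool.Agent.P8H50.NK

noncomputable section

/-- the rank condition from the condition on common zeros -/
theorem rk_zero {d q : ℕ} {M : Fin q → Fin d → ℂ} {A : Finset (Fin q)}
    (h : ∀ x : Fin d → ℂ, (∀ j ∈ A, ∑ l, M j l * x l = 0) → x = 0) :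
    Pool.Agent.N750.rk ℂ M A = d := by
  classical
  unfold Pool.Agent.N750.rk
  have h1 : Submodule.span ℂ (M '' (A : Set (Fin q))) = ⊤ := by
    rw [← Submodule.dualAnnihilator_eq_bot_iff]
    rw [eq_bot_iff]
    intro φ hφ
    rw [Submodule.mem_bot]
    rw [Submodule.mem_dualAnnihilator] at hφ
    have h2 := h (fun l => φ (Pi.single l 1)) (fun j hj => by
      have h3 := hφ (M j) (Submodule.subset_span ⟨j, hj, rfl⟩)
      have h4 : M j = ∑ l, M j l • (Pi.single l 1 : Fin d → ℂ) := by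
        funext i
        simp [Pi.single_apply]
      rw [h4, map_sum] at h3
      simpa only [map_smul, smul_eq_mul] using h3)
    apply LinearMap.pi_ext'
    intro l
    ext
    simpa using congrFun h2 l
  rw [h1, finrank_top, Module.finrank_fin_fun]

section pl

variable {L : Type} [Field L] [Algebra ℂ L]

theorem ge_lk {N : ℕ} (P : Place ℂ L) (b : Fin (N + 1) → ℂ) (y : Fin (N + 1) → L) :
    Ge P (pord P y) (lk b y) := by
  unfold lk
  refine Ge.sum _ _ fun l _ => ?_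
  have := (Ge.const (P := P) (b l)).mul (ge_pord P y l)
  rwa [zero_add] at this

theorem ord_prod' {ι : Type} (P : Place ℂ L) (s : Finset ι) (g : ι → L) (e : ι → ℕ)
    (h : ∀ j ∈ s, g j ≠ 0) : P.ord (∏ j ∈ s, g j ^ e j) = ∑ j ∈ s, (e j : ℤ) * P.ord (g j) := by
  classical
  induction s using Finset.induction_on with
  | empty => rw [Finset.prod_empty, Finset.sum_empty, P.ord_one]
  | insert a s ha ih =>
    rw [Finset.prod_insert ha, Finset.sum_insert ha, P.ord_mul, P.ord_pow,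
      ih fun j hj => h j (Finset.mem_insert_of_mem hj)]
    · exact pow_ne_zero _ (h a (Finset.mem_insert_self a s))
    · exact Finset.prod_ne_zero_iff.2 fun j hj => pow_ne_zero _ (h j (Finset.mem_insert_of_mem hj))

theorem ord_prod1 {ι : Type} (P : Place ℂ L) (s : Finset ι) (g : ι → L)
    (h : ∀ j ∈ s, g j ≠ 0) : P.ord (∏ j ∈ s, g j) = ∑ j ∈ s, P.ord (g j) := by
  have := ord_prod' P s g (fun _ => 1) h
  simpa using this

variable {s : ℕ} {n : Fin s → ℕ} {r : ℕ} {D : PDat ℂ n r} {y : ∀ j, Fin (n j + 1) → L}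
  {z : Fin r → L}

theorem y_ne (h : D.Pt y z) (j : Fin s) : y j ≠ 0 := by
  obtain ⟨a, ha⟩ := h.one j
  intro h0
  rw [h0, Pi.zero_apply] at ha
  exact zero_ne_one ha

theorem lk_ne (hD : D.Good) (h : D.Pt y z) (j : Fin s) (l : Fin (D.q j)) :
    lk (D.ℓ j l) (y j) ≠ 0 := by
  obtain ⟨i, hi⟩ := hD.occ j l
  have h1 : ∏ j, ∏ l, lk (D.ℓ j l) (y j) ^ D.e i j l ≠ 0 := by
    rw [← h.eq i]
    exact pow_ne_zero _ (h.nz i)
  have h2 := (Finset.prod_ne_zero_iff.1 h1) j (Finset.mem_univ j)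
  have h3 := (Finset.prod_ne_zero_iff.1 h2) l (Finset.mem_univ l)
  intro h0
  exact h3 (by rw [h0, zero_pow (by omega)])

/-- the sum for one equation -/
theorem one_eq (hD : D.Good) (h : D.Pt y z) (P : Place ℂ L) (i : Fin r) :
    ∃ w : ℤ, 0 ≤ w ∧ ∑ j, ∑ l, (D.e i j l : ℤ) * (P.ord (lk (D.ℓ j l) (y j)) - pord P (y j)) =
      D.m i * w := by
  have hS0 : 0 ≤ ∑ j, ∑ l, (D.e i j l : ℤ) * (P.ord (lk (D.ℓ j l) (y j)) - pord P (y j)) :=
    Finset.sum_nonneg fun j _ => Finset.sum_nonneg fun l _ => mul_nonneg (by positivity) (by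
      have := (ge_lk P (D.ℓ j l) (y j)).resolve_left (lk_ne hD h j l)
      omega)
  have h1 := congrArg P.ord (h.eq i)
  rw [P.ord_pow] at h1
  have h2 : P.ord (∏ j, ∏ l, lk (D.ℓ j l) (y j) ^ D.e i j l) =
      ∑ j, ∑ l, (D.e i j l : ℤ) * P.ord (lk (D.ℓ j l) (y j)) := by
    rw [ord_prod1 P _ _ (fun j _ => Finset.prod_ne_zero_iff.2 fun l _ =>
      pow_ne_zero _ (lk_ne hD h j l))]
    exact Finset.sum_congr rfl fun j _ => ord_prod' P _ _ _ fun l _ => lk_ne hD h j l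
  choose w hw using hD.dvd i
  have h3 : ∑ j, ∑ l, (D.e i j l : ℤ) * (P.ord (lk (D.ℓ j l) (y j)) - pord P (y j)) =
      D.m i * (P.ord (z i) - ∑ j, (w j : ℤ) * pord P (y j)) := by
    have h4 : ∀ j, ∑ l, (D.e i j l : ℤ) * (P.ord (lk (D.ℓ j l) (y j)) - pord P (y j)) =
        ∑ l, (D.e i j l : ℤ) * P.ord (lk (D.ℓ j l) (y j)) - D.m i * ((w j : ℤ) * pord P (y j)) := by
      intro j
      have h5 : (∑ l, (D.e i j l : ℤ)) = D.m i * w j := by exact_mod_cast hw j
      rw [← mul_assoc, ← h5, Finset.sum_mul, ← Finset.sum_sub_distrib]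
      exact Finset.sum_congr rfl fun l _ => mul_sub _ _ _
    rw [Finset.sum_congr rfl fun j _ => h4 j, Finset.sum_sub_distrib, ← h2, ← h1, ← Finset.mul_sum]
    ring
  refine ⟨P.ord (z i) - ∑ j, (w j : ℤ) * pord P (y j), ?_, h3⟩
  rw [h3] at hS0
  have hm : (0 : ℤ) < D.m i := by exact_mod_cast hD.m_pos i
  exact nonneg_of_mul_nonneg_right hS0 hm

end pl

section numbers

variable {s : ℕ} {n : Fin s → ℕ} {r : ℕ}

/-- the product of the degrees -/
def MM (D : PDat ℂ n r) : ℕ := ∏ i, D.m i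

/-- the joint exponents -/
def ee (D : PDat ℂ n r) (j : Fin s) (l : Fin (D.q j)) : ℕ := ∑ i, (MM D / D.m i) * D.e i j l

variable {D : PDat ℂ n r}

theorem MM_pos (hD : D.Good) : 0 < MM D := Finset.prod_pos fun i _ => hD.m_pos i

theorem m_dvd (i : Fin r) : D.m i ∣ MM D := Finset.dvd_prod_of_mem _ (Finset.mem_univ i)

theorem ee_pos (hD : D.Good) (j : Fin s) (l : Fin (D.q j)) : 1 ≤ ee D j l := by
  obtain ⟨i, hi⟩ := hD.occ j l
  have h1 : 1 ≤ MM D / D.m i :=
    Nat.div_pos (Nat.le_of_dvd (MM_pos hD) (m_dvd i)) (hD.m_pos i)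
  calc 1 ≤ (MM D / D.m i) * D.e i j l := Nat.mul_pos h1 hi
    _ ≤ _ := Finset.single_le_sum (f := fun i => (MM D / D.m i) * D.e i j l)
      (fun _ _ => Nat.zero_le _) (Finset.mem_univ i)

theorem sum_ee (hD : D.Good) (j : Fin s) : ∑ l, (ee D j l : ℝ) = MM D * D.E j := by
  unfold ee PDat.E
  push_cast
  rw [Finset.sum_comm, Finset.mul_sum]
  refine Finset.sum_congr rfl fun i _ => ?_
  rw [← Finset.mul_sum, Nat.cast_div (m_dvd i) (by exact_mod_cast (Nat.pos_of_ne_zero (Nat.one_le_iff_ne_zero.1 (hD.m_pos i))).ne')]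
  ring

theorem places {L : Type} [Field L] [Algebra ℂ L] {y : ∀ j, Fin (n j + 1) → L}
    {z : Fin r → L} (hD : D.Good) (h : D.Pt y z) (P : Place ℂ L) :
    (∑ j, ∑ l, (ee D j l : ℤ) * (P.ord (lk (D.ℓ j l) (y j)) - pord P (y j)) = 0) ∨
      (MM D : ℤ) ≤ ∑ j, ∑ l, (ee D j l : ℤ) * (P.ord (lk (D.ℓ j l) (y j)) - pord P (y j)) := by
  choose w hw0 hw using fun i => one_eq hD h P i
  have h1 : ∑ j, ∑ l, (ee D j l : ℤ) * (P.ord (lk (D.ℓ j l) (y j)) - pord P (y j)) =
      (MM D : ℤ) * ∑ i, w i := by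
    have h2 : ∀ i, (MM D : ℤ) * w i = ∑ j, ∑ l, ((MM D / D.m i : ℕ) : ℤ) *
        ((D.e i j l : ℤ) * (P.ord (lk (D.ℓ j l) (y j)) - pord P (y j))) := by
      intro i
      simp only [← Finset.mul_sum]
      rw [hw i, ← mul_assoc]
      congr 1
      exact_mod_cast (Nat.div_mul_cancel (m_dvd (D := D) i)).symm
    rw [Finset.mul_sum, Finset.sum_congr rfl fun i _ => h2 i, Finset.sum_comm]
    refine Finset.sum_congr rfl fun j _ => ?_
    rw [Finset.sum_comm]
    refine Finset.sum_congr rfl fun l _ => ?_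
    unfold ee
    push_cast
    rw [Finset.sum_mul]
    exact Finset.sum_congr rfl fun i _ => by ring
  rw [h1]
  have h3 : 0 ≤ ∑ i, w i := Finset.sum_nonneg fun i _ => hw0 i
  rcases h3.eq_or_lt with h4 | h4
  · left
    rw [← h4, mul_zero]
  · right
    have h5 : (1 : ℤ) ≤ ∑ i, w i := h4
    calc (MM D : ℤ) = MM D * 1 := (mul_one _).symm
      _ ≤ _ := mul_le_mul_of_nonneg_left h5 (by positivity)

end numbers

/-- the height of a quotient of coordinates is at most the height of the point -/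
theorem hgt_le_pht {L : Type} [Field L] [Algebra ℂ L] [IsFF ℂ L] {n : ℕ} (f : Fin (n + 1) → L)
    {j l : Fin (n + 1)} (hj : f j ≠ 0) (hl : f l ≠ 0) : hgt ℂ (f j / f l) ≤ pht ℂ f := by
  classical
  obtain ⟨T, hT⟩ := exists_supp (k := ℂ) Finset.univ f
  have h1 : ∀ j, ∀ P : Place ℂ L, P.ord (f j) ≠ 0 → P ∈ T := fun j => hT j (Finset.mem_univ j)
  have h1' : ∀ P : Place ℂ L, P.ord (f j / f l) ≠ 0 → P ∈ T := by
    intro P hP
    by_contra hcon
    apply hP
    have h2 : P.ord (f j) = 0 := by by_contra h; exact hcon (h1 j P h)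
    have h3 : P.ord (f l) = 0 := by by_contra h; exact hcon (h1 l P h)
    rw [P.ord_div hj hl, h2, h3]; rfl
  have h2 : pht ℂ f = ∑ P ∈ T, (- pord P f) := by
    unfold pht
    rw [finsum_eq_sum_of_support_subset (s := T), Finset.sum_neg_distrib]
    intro P hP
    by_contra hcon
    apply hP
    obtain ⟨j, hj, h⟩ := exists_pord P ⟨l, hl⟩
    simp only
    rw [← h]
    by_contra h'; exact hcon (h1 j P h')
  have h3 : ∑ P ∈ T, P.ord (f l) = 0 := sum_ord_finset _ T (h1 l)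
  have h4 : ∑ P ∈ T, (- pord P f) = ∑ P ∈ T, (- pord P f + P.ord (f l)) := by
    rw [Finset.sum_add_distrib, h3, add_zero]
  rw [h2, h4, hgt_finset _ T h1']
  refine Finset.sum_le_sum fun P _ => ?_
  have h5 := pord_le P hj
  have h6 := pord_le P hl
  rw [P.ord_div hj hl]
  refine max_le ?_ ?_ <;> omega

theorem hgt_const {L : Type} [Field L] [Algebra ℂ L] (c : ℂ) : hgt ℂ (algebraMap ℂ L c) = 0 := by
  unfold hgt
  have h1 : ∀ P : Place ℂ L, max (-P.ord (algebraMap ℂ L c)) 0 = 0 := by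
    intro P
    by_cases hc : c = 0
    · rw [hc, map_zero, P.ord_zero]; rfl
    · rw [P.ord_const hc]; rfl
  rw [finsum_congr h1, finsum_zero]

/-- **DEG** -/
theorem deg0 (hA : S_AFI) : ∀ (s : ℕ) (n : Fin s → ℕ) (r : ℕ) (D : PDat ℂ n r), D.Good →
    ∃ C : ℕ, ∀ (K : Type) [Field K] [Algebra ℂ K] [IsFF ℂ K] (y : ∀ j, Fin (n j + 1) → K)
      (z : Fin r → K), D.Pt y z → ∀ j a, hgt ℂ (y j a) ≤ C * max (canDeg ℂ K) 0 := by
  classical
  intro s n r D hD
  obtain ⟨ρ, hρ0, hρ1, hρ⟩ := hD.small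
  have hM := MM_pos hD
  have hM' : (0 : ℝ) < MM D := by exact_mod_cast hM
  obtain ⟨C, hC0, hC⟩ := hA s n D.q D.t (ee D) (MM D) (fun j => MM D * ρ j) hD.dim (ee_pos hD)
    (fun j => ⟨mul_nonneg hM'.le (hρ0 j), fun p h1 h2 => by
      obtain ⟨b, rfl⟩ : ∃ b, p = b + 1 := ⟨p - 1, by omega⟩
      have h3 := hρ j b (by omega) (by omega)
      rw [sum_ee hD j]
      have h4 := mul_le_mul_of_nonneg_left h3 hM'.le
      push_cast
      calc ((b : ℝ) + 1 - 1) * (2 * D.t j - (b + 1) + 2) * (MM D * D.E j)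
          = MM D * ((b : ℝ) * (2 * D.t j + 1 - b) * D.E j) := by ring
        _ ≤ _ := h4
        _ = _ := by ring⟩) (by
      rw [← Finset.mul_sum]
      calc (MM D : ℝ) * ∑ j, ρ j < MM D * 1 := mul_lt_mul_of_pos_left hρ1 hM'
        _ = _ := mul_one _)
  refine ⟨⌈C⌉₊, fun K _ _ _ y z h j a => ?_⟩
  have hmax : (0 : ℤ) ≤ max (canDeg ℂ K) 0 := le_max_right _ _
  have h2 := hC ℂ K D.ℓ y (fun j A hA' => rk_zero fun x hx => hD.mult j A hA' x hx)
    (fun j => y_ne h j) (fun j l => lk_ne hD h j l) (fun P => places hD h P)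
  rcases h2 with h3 | h3
  · have hp : ∀ j, 0 ≤ pht ℂ (y j) := by
      intro j
      obtain ⟨b, hb⟩ := h.one j
      have hb0 : y j b ≠ 0 := by rw [hb]; exact one_ne_zero
      have := hgt_le_pht (y j) hb0 hb0
      rw [div_self hb0, hgt_one] at this
      exact this
    have h4 : hgt ℂ (y j a) ≤ pht ℂ (y j) := by
      obtain ⟨b, hb⟩ := h.one j
      have hb0 : y j b ≠ 0 := by rw [hb]; exact one_ne_zero
      by_cases h0 : y j a = 0
      · rw [h0, ← map_zero (algebraMap ℂ K), hgt_const]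
        exact hp j
      · have := hgt_le_pht (y j) h0 hb0
        rwa [hb, div_one] at this
    have h5 : pht ℂ (y j) ≤ ∑ j, pht ℂ (y j) :=
      Finset.single_le_sum (f := fun j => pht ℂ (y j)) (fun j _ => hp j) (Finset.mem_univ j)
    have h6 : (hgt ℂ (y j a) : ℝ) ≤ C * (canDeg ℂ K : ℝ) := by
      refine le_trans ?_ h3
      exact_mod_cast h4.trans h5
    have h7 : C * (canDeg ℂ K : ℝ) ≤ C * ((max (canDeg ℂ K) 0 : ℤ) : ℝ) := by
      refine mul_le_mul_of_nonneg_left ?_ hC0.le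
      exact_mod_cast le_max_left _ _
    have h8 : C * ((max (canDeg ℂ K) 0 : ℤ) : ℝ) ≤ (⌈C⌉₊ : ℝ) * ((max (canDeg ℂ K) 0 : ℤ) : ℝ) :=
      mul_le_mul_of_nonneg_right (Nat.le_ceil C) (by exact_mod_cast hmax)
    have h9 := h6.trans (h7.trans h8)
    exact_mod_cast h9
  · obtain ⟨c, b, hcb⟩ := h3 j
    obtain ⟨b0, hb0⟩ := h.one j
    have h4 : c * algebraMap ℂ K (b b0) = 1 := by rw [← hcb b0, hb0]
    have h5 : algebraMap ℂ K (b b0) ≠ 0 := right_ne_zero_of_mul_eq_one h4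
    have h6 : y j a = algebraMap ℂ K (b a / b b0) := by
      rw [hcb a, map_div₀, eq_div_iff h5]
      calc c * algebraMap ℂ K (b a) * algebraMap ℂ K (b b0) =
            (c * algebraMap ℂ K (b b0)) * algebraMap ℂ K (b a) := by ring
        _ = _ := by rw [h4, one_mul]
    rw [h6, hgt_const]
    positivity

end

end Pool.Agent.P8H75.NK
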