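import Pool.Agent.P8H50.NK.Stm4
import Pool.Agent.P8H75.NK.Deg0

/-!
Project NK (helper50), package DEG (helper75): heights of the points over function fields of curves.
-/

set_option autoImplicit false

namespace Pool.Agent.P8H75.NK

open Pool.Agent.P8H50.NK

/-- **DEG** -/
theorem deg (hA : S_AFI) : S_DEG := deg0 hA

end Pool.Agent.P8H75.NK
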